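import Mathlib

/-!
Kneser's addition theorem for finite abelian groups.
-/

namespace Pool.Agent.Lib.helper11

open Finset Pointwise

variable {G : Type*} [AddCommGroup G] [Fintype G] [DecidableEq G]

/-- `C` is a union of cosets of `H`. -/
def Periodic (H : AddSubgroup G) (C : Finset G) : Prop := ∀ h ∈ H, ∀ x ∈ C, h + x ∈ C

/-- `C` is periodic under a subgroup `H` with `n ≤ |C| + |H|`. -/
def Phi (C : Finset G) (n : ℕ) : Prop :=
  ∃ H : AddSubgroup G, Periodic H C ∧ n ≤ C.card + Nat.card H

omit [Fintype G] [DecidableEq G] in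
lemma Periodic.not_mem {H : AddSubgroup G} {C : Finset G} (hC : Periodic H C) {h x : G}
    (hh : h ∈ H) (hx : x ∉ C) : h + x ∉ C := by
  intro h1
  apply hx
  have := hC (-h) (H.neg_mem hh) _ h1
  simpa using this

omit [Fintype G] [DecidableEq G] in
lemma Periodic.mem_iff {H : AddSubgroup G} {C : Finset G} (hC : Periodic H C) {h x : G}
    (hh : h ∈ H) : h + x ∈ C ↔ x ∈ C :=
  ⟨fun h1 => by by_contra h2; exact hC.not_mem hh h2 h1, hC h hh x⟩

/-- elements of a subgroup, as a finset -/
noncomputable def els (H : AddSubgroup G) : Finset G := by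
  classical exact Finset.univ.filter (· ∈ H)

omit [DecidableEq G] in
lemma mem_els {H : AddSubgroup G} {x : G} : x ∈ els H ↔ x ∈ H := by
  classical simp [els]

omit [DecidableEq G] in
lemma card_els (H : AddSubgroup G) : (els H).card = Nat.card H := by
  classical
  rw [Nat.card_eq_fintype_card, Fintype.card_subtype]
  unfold els
  congr

/-- the polynomial inequality behind Kneser's lemma -/
lemma ineq_aux (κ h₁ h₂ a b : ℤ) (hκ : 0 < κ) (ha : κ ≤ a) (ha' : a ≤ h₂ - κ)
    (h12 : h₂ ≤ h₁) (h1 : a * b < κ * (h₁ - κ)) :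
    κ * (h₂ - κ) ≤ (h₁ - b) * (h₂ - a) := by
  by_contra hcon
  push Not at hcon
  have ha0 : 0 < a := lt_of_lt_of_le hκ ha
  have hd : 0 < h₂ - a := by linarith
  have e1 : (h₁ * a - a * b) * (h₂ - a) ≥ (h₁ * a - κ * (h₁ - κ)) * (h₂ - a) := by
    apply mul_le_mul_of_nonneg_right _ hd.le
    linarith
  have e2 : (h₁ * (a - κ)) * (h₂ - a) ≥ (h₂ * (a - κ)) * (h₂ - a) := by
    apply mul_le_mul_of_nonneg_right _ hd.le
    apply mul_le_mul_of_nonneg_right h12
    linarith
  have e3 : 0 ≤ h₂ * ((a - κ) * (h₂ - a - κ)) := by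
    apply mul_nonneg (by linarith)
    apply mul_nonneg <;> linarith
  have e4 : a * ((h₁ - b) * (h₂ - a)) < a * (κ * (h₂ - κ)) :=
    mul_lt_mul_of_pos_left hcon ha0
  nlinarith

lemma count_aux {H₁ H₂ : AddSubgroup G} (x : G) (R₁ R₂ D : Finset G)
    (hR₁ : ∀ q ∈ R₁, q ∈ H₂) (hR₂ : ∀ p ∈ R₂, p ∈ H₁)
    (hD : ∀ p ∈ R₂, ∀ q ∈ R₁, x + p + q ∈ D) :
    R₂.card * R₁.card ≤ Nat.card (H₁ ⊓ H₂ : AddSubgroup G) * D.card := by
  classical
  rw [← Finset.card_product]
  apply Finset.card_le_mul_card_image_of_maps_to (f := fun z : G × G => x + z.1 + z.2)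
  · rintro ⟨p, q⟩ hz
    rw [Finset.mem_product] at hz
    exact hD p hz.1 q hz.2
  · intro b _
    rw [← card_els]
    by_cases hne : ((R₂ ×ˢ R₁).filter fun z : G × G => x + z.1 + z.2 = b).Nonempty
    · obtain ⟨⟨p₀, q₀⟩, h0⟩ := hne
      simp only [Finset.mem_filter, Finset.mem_product] at h0
      apply Finset.card_le_card_of_injOn (fun z => z.1 - p₀)
      · rintro ⟨p, q⟩ hz
        simp only [Finset.coe_filter, Finset.mem_product, Set.mem_ofPred_eq] at hz
        rw [Finset.mem_coe, mem_els, AddSubgroup.mem_inf]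
        refine ⟨H₁.sub_mem (hR₂ _ hz.1.1) (hR₂ _ h0.1.1), ?_⟩
        have h2 : p - p₀ = q₀ - q := by
          have := hz.2.trans h0.2.symm
          rw [sub_eq_sub_iff_add_eq_add]
          have h3 : x + (p + q) = x + (q₀ + p₀) := by
            rw [← add_assoc, this]; abel
          exact add_left_cancel h3
        show p - p₀ ∈ H₂
        rw [h2]
        exact H₂.sub_mem (hR₁ _ h0.1.2) (hR₁ _ hz.1.2)
      · rintro ⟨p, q⟩ hz ⟨p', q'⟩ hz' hpp
        simp only [Finset.coe_filter, Finset.mem_product, Set.mem_ofPred_eq] at hz hz'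
        simp only [sub_left_inj] at hpp
        subst hpp
        have := hz.2.trans hz'.2.symm
        simp only [add_right_inj] at this
        rw [this]
    · rw [Finset.not_nonempty_iff_eq_empty] at hne
      rw [hne]
      simp

/-- half of Kneser's lemma -/
lemma half_aux {C₁ C₂ : Finset G} {H₁ H₂ : AddSubgroup G} (p₁ : Periodic H₁ C₁)
    (p₂ : Periodic H₂ C₂) {x : G} (hx2 : x ∈ C₂) (hx1 : x ∉ C₁)
    (n1 : (C₂ \ C₁).card + Nat.card (H₁ ⊓ H₂ : AddSubgroup G) < Nat.card H₁)
    (n2 : (C₁ \ C₂).card + Nat.card (H₁ ⊓ H₂ : AddSubgroup G) < Nat.card H₂) :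
    Nat.card H₂ < Nat.card H₁ := by
  classical
  set κ := Nat.card (H₁ ⊓ H₂ : AddSubgroup G) with hκdef
  set h₁ := Nat.card H₁ with hh1
  set h₂ := Nat.card H₂ with hh2
  have hκ : 0 < κ := Nat.card_pos
  set R₁ := (els H₂).filter fun q => x + q ∉ C₁ with hR1
  set R₂ := (els H₁).filter fun p => x + p ∈ C₂ with hR2
  set R₁' := (els H₂).filter fun q => ¬ (x + q ∉ C₁) with hR1'
  set R₂' := (els H₁).filter fun p => ¬ (x + p ∈ C₂) with hR2'
  have c1 : R₁.card + R₁'.card = h₂ := by
    rw [hR1, hR1', Finset.card_filter_add_card_filter_not, card_els]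
  have c2 : R₂.card + R₂'.card = h₁ := by
    rw [hR2, hR2', Finset.card_filter_add_card_filter_not, card_els]
  have m1 : R₂.card * R₁.card ≤ κ * (C₂ \ C₁).card := by
    apply count_aux x R₁ R₂ (C₂ \ C₁)
    · intro q hq
      exact mem_els.1 (Finset.mem_filter.1 hq).1
    · intro p hp
      exact mem_els.1 (Finset.mem_filter.1 hp).1
    · intro p hp q hq
      rw [hR2, Finset.mem_filter, mem_els] at hp
      rw [hR1, Finset.mem_filter, mem_els] at hq
      rw [Finset.mem_sdiff]
      constructor
      · have := p₂ q hq.1 _ hp.2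
        rwa [show q + (x + p) = x + p + q by abel] at this
      · have := p₁.not_mem hp.1 hq.2
        rwa [show p + (x + q) = x + p + q by abel] at this
  have m2 : R₂'.card * R₁'.card ≤ κ * (C₁ \ C₂).card := by
    apply count_aux x R₁' R₂' (C₁ \ C₂)
    · intro q hq
      exact mem_els.1 (Finset.mem_filter.1 hq).1
    · intro p hp
      exact mem_els.1 (Finset.mem_filter.1 hp).1
    · intro p hp q hq
      rw [hR2', Finset.mem_filter, mem_els] at hp
      rw [hR1', Finset.mem_filter, mem_els, not_not] at hq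
      rw [Finset.mem_sdiff]
      constructor
      · have := p₁ p hp.1 _ hq.2
        rwa [show p + (x + q) = x + p + q by abel] at this
      · have := p₂.not_mem hq.1 hp.2
        rwa [show q + (x + p) = x + p + q by abel] at this
  have hK1 : κ ≤ R₁.card := by
    rw [hκdef, ← card_els]
    apply Finset.card_le_card
    intro c hc
    rw [mem_els, AddSubgroup.mem_inf] at hc
    rw [hR1, Finset.mem_filter, mem_els]
    refine ⟨hc.2, ?_⟩
    rw [add_comm]
    exact p₁.not_mem hc.1 hx1
  have hK2 : κ ≤ R₂.card := by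
    rw [hκdef, ← card_els]
    apply Finset.card_le_card
    intro c hc
    rw [mem_els, AddSubgroup.mem_inf] at hc
    rw [hR2, Finset.mem_filter, mem_els]
    refine ⟨hc.1, ?_⟩
    rw [add_comm]
    exact p₂ c hc.2 _ hx2
  have hK1' : R₁'.Nonempty → κ ≤ R₁'.card := by
    rintro ⟨q, hq⟩
    rw [hR1', Finset.mem_filter, mem_els, not_not] at hq
    rw [hκdef, ← card_els]
    apply Finset.card_le_card_of_injOn (fun c => c + q)
    · intro c hc
      rw [Finset.mem_coe, mem_els, AddSubgroup.mem_inf] at hc
      rw [Finset.mem_coe, hR1', Finset.mem_filter, mem_els, not_not]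
      refine ⟨H₂.add_mem hc.2 hq.1, ?_⟩
      have := p₁ c hc.1 _ hq.2
      rwa [show c + (x + q) = x + (c + q) by abel] at this
    · intro c _ c' _ h
      simpa using h
  have hK2' : R₂'.Nonempty → κ ≤ R₂'.card := by
    rintro ⟨p, hp⟩
    rw [hR2', Finset.mem_filter, mem_els] at hp
    rw [hκdef, ← card_els]
    apply Finset.card_le_card_of_injOn (fun c => c + p)
    · intro c hc
      rw [Finset.mem_coe, mem_els, AddSubgroup.mem_inf] at hc
      rw [Finset.mem_coe, hR2', Finset.mem_filter, mem_els]
      refine ⟨H₁.add_mem hc.1 hp.1, ?_⟩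
      have := p₂.not_mem hc.2 hp.2
      rwa [show c + (x + p) = x + (c + p) by abel] at this
    · intro c _ c' _ h
      simpa using h
  by_cases hne : R₁'.Nonempty
  · -- impossible
    exfalso
    have hk := hK1' hne
    have hz1 : (R₁.card : ℤ) + R₁'.card = h₂ := by exact_mod_cast c1
    have hz2 : (R₂.card : ℤ) + R₂'.card = h₁ := by exact_mod_cast c2
    have hzm1 : (R₂.card : ℤ) * R₁.card ≤ κ * (C₂ \ C₁).card := by exact_mod_cast m1
    have hzm2 : (R₂'.card : ℤ) * R₁'.card ≤ κ * (C₁ \ C₂).card := by exact_mod_cast m2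
    have hzk1 : (κ : ℤ) ≤ R₁.card := by exact_mod_cast hK1
    have hzk2 : (κ : ℤ) ≤ R₂.card := by exact_mod_cast hK2
    have hzk1' : (κ : ℤ) ≤ R₁'.card := by exact_mod_cast hk
    have hzn1 : ((C₂ \ C₁).card : ℤ) < h₁ - κ := by
      have : ((C₂ \ C₁).card : ℤ) + κ < h₁ := by exact_mod_cast n1
      linarith
    have hzn2 : ((C₁ \ C₂).card : ℤ) < h₂ - κ := by
      have : ((C₁ \ C₂).card : ℤ) + κ < h₂ := by exact_mod_cast n2
      linarith
    have hzκ : (0 : ℤ) < κ := by exact_mod_cast hκ
    have f1 : (R₂.card : ℤ) * R₁.card < κ * (h₁ - κ) :=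
      lt_of_le_of_lt hzm1 (mul_lt_mul_of_pos_left hzn1 hzκ)
    have f2 : (R₂'.card : ℤ) * R₁'.card < κ * (h₂ - κ) :=
      lt_of_le_of_lt hzm2 (mul_lt_mul_of_pos_left hzn2 hzκ)
    have hR2'ne : R₂'.Nonempty := by
      by_contra hcon
      rw [Finset.not_nonempty_iff_eq_empty] at hcon
      rw [hcon] at hz2
      simp only [Finset.card_empty, Nat.cast_zero, add_zero] at hz2
      rw [hz2] at f1
      have : (h₁ : ℤ) * R₁.card ≥ h₁ * κ := by
        apply mul_le_mul_of_nonneg_left hzk1
        positivity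
      nlinarith
    have hzk2' : (κ : ℤ) ≤ R₂'.card := by exact_mod_cast hK2' hR2'ne
    rcases le_total (h₂ : ℤ) h₁ with hle | hle
    · have := ineq_aux κ h₁ h₂ R₁.card R₂.card hzκ hzk1 (by linarith) hle (by
        rw [mul_comm]; exact f1)
      have e : ((h₁ : ℤ) - R₂.card) * (h₂ - R₁.card) = R₂'.card * R₁'.card := by
        rw [← hz1, ← hz2]; ring
      rw [e] at this
      linarith
    · have := ineq_aux κ h₂ h₁ R₂'.card R₁'.card hzκ hzk2' (by linarith) hle f2
      have e : ((h₂ : ℤ) - R₁'.card) * (h₁ - R₂'.card) = R₂.card * R₁.card := by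
        rw [← hz1, ← hz2]; ring
      rw [e] at this
      linarith
  · rw [Finset.not_nonempty_iff_eq_empty] at hne
    rw [hne] at c1
    simp only [Finset.card_empty, add_zero] at c1
    have h3 : κ * h₂ ≤ κ * (C₂ \ C₁).card := by
      calc κ * h₂ ≤ R₂.card * h₂ := Nat.mul_le_mul_right _ hK2
        _ = R₂.card * R₁.card := by rw [c1]
        _ ≤ _ := m1
    have h4 := Nat.le_of_mul_le_mul_left h3 hκ
    omega

/-- Kneser's lemma on unions -/
lemma Phi.union {C₁ C₂ : Finset G} {n : ℕ} (h1 : Phi C₁ n) (h2 : Phi C₂ n) :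
    Phi (C₁ ∪ C₂) n := by
  classical
  obtain ⟨H₁, p₁, b₁⟩ := h1
  obtain ⟨H₂, p₂, b₂⟩ := h2
  by_cases hs1 : C₁ ⊆ C₂
  · rw [Finset.union_eq_right.2 hs1]
    exact ⟨H₂, p₂, b₂⟩
  by_cases hs2 : C₂ ⊆ C₁
  · rw [Finset.union_eq_left.2 hs2]
    exact ⟨H₁, p₁, b₁⟩
  obtain ⟨y, hy1, hy2⟩ := Finset.not_subset.1 hs1
  obtain ⟨x, hx2, hx1⟩ := Finset.not_subset.1 hs2
  refine ⟨H₁ ⊓ H₂, ?_, ?_⟩
  · intro h hh z hz
    rw [AddSubgroup.mem_inf] at hh
    rw [Finset.mem_union] at hz ⊢
    rcases hz with hz | hz
    · exact Or.inl (p₁ h hh.1 z hz)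
    · exact Or.inr (p₂ h hh.2 z hz)
  · by_contra hcon
    push Not at hcon
    have u1 : (C₁ ∪ C₂).card = C₁.card + (C₂ \ C₁).card := by
      rw [← Finset.union_sdiff_self_eq_union, Finset.card_union_of_disjoint Finset.disjoint_sdiff]
    have u2 : (C₁ ∪ C₂).card = C₂.card + (C₁ \ C₂).card := by
      rw [Finset.union_comm, ← Finset.union_sdiff_self_eq_union,
        Finset.card_union_of_disjoint Finset.disjoint_sdiff]
    have n1 : (C₂ \ C₁).card + Nat.card (H₁ ⊓ H₂ : AddSubgroup G) < Nat.card H₁ := by omega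
    have n2 : (C₁ \ C₂).card + Nat.card (H₁ ⊓ H₂ : AddSubgroup G) < Nat.card H₂ := by omega
    have f1 := half_aux p₁ p₂ hx2 hx1 n1 n2
    have f2 := half_aux p₂ p₁ hy1 hy2 (by rwa [inf_comm]) (by rwa [inf_comm])
    omega

lemma Phi.biUnion {ι : Type*} (S : Finset ι) (C : ι → Finset G) (n : ℕ)
    (hS : S.Nonempty) (h : ∀ i ∈ S, Phi (C i) n) : Phi (S.biUnion C) n := by
  classical
  induction hS using Finset.Nonempty.cons_induction with
  | singleton a => simpa using h a (by simp)
  | cons a s ha hs ih =>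
    rw [Finset.cons_eq_insert, Finset.biUnion_insert]
    apply Phi.union
    · exact h a (by simp)
    · exact ih fun i hi => h i (by simp [hi])

/-- every element of `A + B` lies in a good subset -/
lemma exists_good (n : ℕ) : ∀ (A B : Finset G), B.card = n → ∀ a ∈ A, ∀ b ∈ B,
    ∃ C ⊆ A + B, a + b ∈ C ∧ Phi C (A.card + B.card) := by
  classical
  induction n using Nat.strong_induction_on with
  | _ n ih =>
    intro A B hB a ha b hb
    by_cases hall : ∀ a' ∈ A, ∀ y ∈ B, y + (a' - b) ∈ A
    · -- `B - b` stabilizes `A`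
      refine ⟨A.image (· + b), ?_, ?_, ?_⟩
      · intro z hz
        obtain ⟨w, hw, rfl⟩ := Finset.mem_image.1 hz
        exact Finset.add_mem_add hw hb
      · exact Finset.mem_image.2 ⟨a, ha, rfl⟩
      · refine ⟨AddAction.stabilizer G (A : Set G), ?_, ?_⟩
        · intro h hh z hz
          obtain ⟨w, hw, rfl⟩ := Finset.mem_image.1 hz
          rw [AddAction.mem_stabilizer_iff] at hh
          have : h +ᵥ w ∈ (h +ᵥ (A : Set G)) := Set.vadd_mem_vadd_set hw
          rw [hh] at this
          refine Finset.mem_image.2 ⟨h + w, this, ?_⟩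
          show h + w + b = h + (w + b)
          abel
        · rw [Finset.card_image_of_injective _ (add_left_injective b)]
          apply Nat.add_le_add_left
          rw [← card_els]
          apply Finset.card_le_card_of_injOn (fun y => y - b)
          · intro y hy
            rw [Finset.mem_coe, mem_els, AddAction.mem_stabilizer_iff]
            have hsub : (A.image (fun x => (y - b) + x)) ⊆ A := by
              intro z hz
              obtain ⟨w, hw, rfl⟩ := Finset.mem_image.1 hz
              have := hall w hw y hy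
              rwa [show y + (w - b) = y - b + w by abel] at this
            have heq := Finset.eq_of_subset_of_card_le hsub (by
              rw [Finset.card_image_of_injective _ (add_right_injective _)])
            ext z
            rw [Set.mem_vadd_set]
            constructor
            · rintro ⟨w, hw, rfl⟩
              exact hsub (Finset.mem_image_of_mem _ hw)
            · intro hz
              rw [Finset.mem_coe, ← heq] at hz
              obtain ⟨w, hw, rfl⟩ := Finset.mem_image.1 hz
              exact ⟨w, hw, rfl⟩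
          · intro y _ y' _ h
            simpa using h
    · push Not at hall
      obtain ⟨a', ha', y, hy, hya⟩ := hall
      set e := a' - b with he
      set B' := B.filter fun z => z + e ∈ A with hB'
      set A' := A ∪ B.image (· + e) with hA'
      have hbB' : b ∈ B' := by
        rw [hB', Finset.mem_filter]
        refine ⟨hb, ?_⟩
        rw [he]
        simpa using ha'
      have haA' : a ∈ A' := Finset.mem_union_left _ ha
      have hcard : A'.card + B'.card = A.card + B.card := by
        have h1 : B'.card = (A ∩ B.image (· + e)).card := by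
          rw [← Finset.card_image_of_injective B' (add_left_injective e)]
          congr 1
          ext z
          simp only [hB', Finset.mem_image, Finset.mem_filter, Finset.mem_inter]
          constructor
          · rintro ⟨w, ⟨hw1, hw2⟩, rfl⟩
            exact ⟨hw2, w, hw1, rfl⟩
          · rintro ⟨hz, w, hw, rfl⟩
            exact ⟨w, ⟨hw, hz⟩, rfl⟩
        rw [h1, hA', Finset.card_union_add_card_inter,
          Finset.card_image_of_injective _ (add_left_injective e)]
      have hlt : B'.card < B.card := by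
        apply Finset.card_lt_card
        rw [Finset.ssubset_iff_of_subset (Finset.filter_subset _ _)]
        exact ⟨y, hy, fun h => hya (Finset.mem_filter.1 h).2⟩
      obtain ⟨C, hC1, hC2, hC3⟩ := ih B'.card (hB ▸ hlt) A' B' rfl a haA' b hbB'
      refine ⟨C, ?_, hC2, by rwa [hcard] at hC3⟩
      intro z hz
      obtain ⟨u, hu, v, hv, rfl⟩ := Finset.mem_add.1 (hC1 hz)
      rw [hB', Finset.mem_filter] at hv
      rcases Finset.mem_union.1 hu with hu | hu
      · exact Finset.add_mem_add hu hv.1
      · obtain ⟨w, hw, rfl⟩ := Finset.mem_image.1 hu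
        rw [Finset.mem_add]
        exact ⟨v + e, hv.2, w, hw, by abel⟩

/-- weak form of Kneser's theorem -/
lemma phi_add (A B : Finset G) (hA : A.Nonempty) (hB : B.Nonempty) :
    Phi (A + B) (A.card + B.card) := by
  classical
  have key : ∀ c ∈ A + B, ∃ C ⊆ A + B, c ∈ C ∧ Phi C (A.card + B.card) := by
    intro c hc
    obtain ⟨a, ha, b, hb, rfl⟩ := Finset.mem_add.1 hc
    exact exists_good _ A B rfl a ha b hb
  choose! C hC1 hC2 hC3 using key
  have := Phi.biUnion (A + B) C (A.card + B.card) (hA.add hB) hC3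
  convert this using 1
  apply Finset.Subset.antisymm
  · intro c hc
    exact Finset.mem_biUnion.2 ⟨c, hc, hC2 c hc⟩
  · intro c hc
    obtain ⟨d, hd, hcd⟩ := Finset.mem_biUnion.1 hc
    exact hC1 d hd hcd

/-- the preimage of a set of cosets -/
noncomputable def pre (H : AddSubgroup G) (S : Finset (G ⧸ H)) : Finset G := by
  classical exact Finset.univ.filter fun x => (QuotientAddGroup.mk x : G ⧸ H) ∈ S

omit [DecidableEq G] in
lemma mem_pre {H : AddSubgroup G} {S : Finset (G ⧸ H)} {x : G} :
    x ∈ pre H S ↔ (QuotientAddGroup.mk x : G ⧸ H) ∈ S := by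
  classical simp [pre]

/-- the image of a set in the quotient -/
noncomputable def img (H : AddSubgroup G) (A : Finset G) : Finset (G ⧸ H) := by
  classical exact A.image QuotientAddGroup.mk

omit [Fintype G] [DecidableEq G] in
lemma mem_img {H : AddSubgroup G} {A : Finset G} {Q : G ⧸ H} :
    Q ∈ img H A ↔ ∃ a ∈ A, (QuotientAddGroup.mk a : G ⧸ H) = Q := by
  classical simp [img]

/-- a coset, as a finset -/
noncomputable def fib (H : AddSubgroup G) (Q : G ⧸ H) : Finset G := by
  classical exact Finset.univ.filter fun x => (QuotientAddGroup.mk x : G ⧸ H) = Q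

omit [DecidableEq G] in
lemma mem_fib {H : AddSubgroup G} {Q : G ⧸ H} {x : G} :
    x ∈ fib H Q ↔ (QuotientAddGroup.mk x : G ⧸ H) = Q := by
  classical simp [fib]

omit [DecidableEq G] in
lemma card_fib (H : AddSubgroup G) (Q : G ⧸ H) : (fib H Q).card = Nat.card H := by
  classical
  obtain ⟨q, rfl⟩ := QuotientAddGroup.mk_surjective Q
  rw [← card_els]
  symm
  apply Finset.card_bij (fun h _ => q + h)
  · intro h hh
    rw [mem_els] at hh
    rw [mem_fib, QuotientAddGroup.eq]
    have : -(q + h) + q = -h := by abel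
    rw [this]
    exact H.neg_mem hh
  · intro h _ h' _ heq
    exact add_left_cancel heq
  · intro x hx
    rw [mem_fib] at hx
    have hx' := QuotientAddGroup.eq.1 hx.symm
    exact ⟨-q + x, mem_els.2 hx', by simp⟩

omit [DecidableEq G] in
lemma card_pre (H : AddSubgroup G) (S : Finset (G ⧸ H)) :
    (pre H S).card = Nat.card H * S.card := by
  classical
  rw [Finset.card_eq_sum_card_fiberwise (f := (QuotientAddGroup.mk : G → G ⧸ H)) (t := S)
    (fun x hx => by
      rw [Finset.mem_coe, mem_pre] at hx
      exact hx)]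
  rw [Finset.sum_const_nat (m := Nat.card H), mul_comm]
  intro Q hQ
  rw [← card_fib H Q]
  congr 1
  ext x
  rw [Finset.mem_filter, mem_pre, mem_fib]
  constructor
  · exact fun h => h.2
  · intro h
    exact ⟨by rwa [h], h⟩

omit [DecidableEq G] in
lemma Periodic.eq_pre {H : AddSubgroup G} {C : Finset G} (hC : Periodic H C) :
    C = pre H (img H C) := by
  ext x
  rw [mem_pre, mem_img]
  constructor
  · intro hx
    exact ⟨x, hx, rfl⟩
  · rintro ⟨a, ha, hax⟩
    have := QuotientAddGroup.eq.1 hax
    have h2 := hC _ this a ha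
    simpa using h2

omit [DecidableEq G] in
lemma subset_pre_img (H : AddSubgroup G) (A : Finset G) : A ⊆ pre H (img H A) := by
  intro x hx
  rw [mem_pre, mem_img]
  exact ⟨x, hx, rfl⟩

/-- **Kneser's theorem**: the sumset `A + B` is periodic under a subgroup `H` such that, in `G ⧸ H`,
the image of `A + B` has at least `|A'| + |B'| - 1` elements, where `A'`, `B'` are the images of
`A` and `B`. The subgroup `H` contains every period of `A + B`. -/
theorem kneser (A B : Finset G) (hA : A.Nonempty) (hB : B.Nonempty) :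
    ∃ H : AddSubgroup G, Periodic H (A + B) ∧
      (∀ K : AddSubgroup G, Periodic K (A + B) → K ≤ H) ∧
      (img H A).card + (img H B).card ≤ (img H (A + B)).card + 1 := by
  classical
  set H : AddSubgroup G := AddAction.stabilizer G ((A + B : Finset G) : Set G) with hH
  have hper : Periodic H (A + B) := by
    intro h hh z hz
    rw [hH, AddAction.mem_stabilizer_iff] at hh
    have : h +ᵥ z ∈ (h +ᵥ ((A + B : Finset G) : Set G)) := Set.vadd_mem_vadd_set hz
    rw [hh] at this
    exact this
  have hmax : ∀ K : AddSubgroup G, Periodic K (A + B) → K ≤ H := by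
    intro K hK h hh
    rw [hH, AddAction.mem_stabilizer_iff]
    ext z
    rw [Set.mem_vadd_set]
    constructor
    · rintro ⟨w, hw, rfl⟩
      exact hK h hh w hw
    · intro hz
      refine ⟨-h + z, hK _ (K.neg_mem hh) z hz, ?_⟩
      show h + (-h + z) = z
      abel
  refine ⟨H, hper, hmax, ?_⟩
  have hsum : pre H (img H A) + pre H (img H B) = A + B := by
    apply Finset.Subset.antisymm
    · intro z hz
      obtain ⟨x, hx, y, hy, rfl⟩ := Finset.mem_add.1 hz
      rw [mem_pre, mem_img] at hx hy
      obtain ⟨a, ha, hax⟩ := hx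
      obtain ⟨b, hb, hby⟩ := hy
      have h1 := QuotientAddGroup.eq.1 hax
      have h2 := QuotientAddGroup.eq.1 hby
      have h3 := hper _ (H.add_mem h1 h2) _ (Finset.add_mem_add ha hb)
      rwa [show -a + x + (-b + y) + (a + b) = x + y by abel] at h3
    · exact Finset.add_subset_add (subset_pre_img H A) (subset_pre_img H B)
  have hne1 : (pre H (img H A)).Nonempty := hA.mono (subset_pre_img H A)
  have hne2 : (pre H (img H B)).Nonempty := hB.mono (subset_pre_img H B)
  obtain ⟨K, hK, hc⟩ := phi_add _ _ hne1 hne2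
  rw [hsum] at hK hc
  have hKH := hmax K hK
  have hcard : Nat.card K ≤ Nat.card H :=
    Nat.card_le_card_of_injective (AddSubgroup.inclusion hKH) (AddSubgroup.inclusion_injective hKH)
  rw [card_pre, card_pre] at hc
  have h1 : (A + B).card = Nat.card H * (img H (A + B)).card := by
    conv_lhs => rw [hper.eq_pre]
    rw [card_pre]
  rw [h1] at hc
  have hpos : 0 < Nat.card H := Nat.card_pos
  have h2 : Nat.card H * ((img H A).card + (img H B).card) ≤
      Nat.card H * ((img H (A + B)).card + 1) := by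
    rw [mul_add, mul_add, mul_one]
    omega
  exact Nat.le_of_mul_le_mul_left h2 hpos

end Pool.Agent.Lib.helper11
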